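import Mathlib
import Pool.Agent.N754.GF.Sq

/-!
Project GF (helper754), part 2B: functions with few poles which are regular at the toric places
are slow.
-/

set_option autoImplicit false
set_option linter.unusedSectionVars false
set_option linter.overlappingInstances false

open MvPolynomial FF Pool.Agent.W603.LV Filter

namespace Pool.Agent.N946.GF

open Pool.Agent.N754.GF Pool.Agent.N754.FV

section evl

variable {k Ω α : Type} [Field k] [Field Ω] [Algebra k Ω] {D : Sy k Ω α} {𝒰 : Ultrafilter α}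
  {K : Type} [Field K] [Algebra k K] (E : Evl D 𝒰 K)

theorem ev_zero : ∀ᶠ t in (𝒰 : Filter α), E.ev 0 t = 0 := by
  have h := E.const 0
  filter_upwards [h] with t ht
  rwa [map_zero, map_zero] at ht

theorem ev_one : ∀ᶠ t in (𝒰 : Filter α), E.ev 1 t = 1 := by
  have h := E.const 1
  filter_upwards [h] with t ht
  rwa [map_one, map_one] at ht

theorem ev_pow (f : K) (n : ℕ) : ∀ᶠ t in (𝒰 : Filter α), E.ev (f ^ n) t = E.ev f t ^ n := by
  induction n with
  | zero =>
    filter_upwards [ev_one E] with t ht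
    rw [pow_zero, pow_zero, ht]
  | succ n ih =>
    filter_upwards [ih, E.mul (f ^ n) f] with t h1 h2
    rw [pow_succ, pow_succ, h2, h1]

theorem ev_sum {ι : Type} (s : Finset ι) (f : ι → K) :
    ∀ᶠ t in (𝒰 : Filter α), E.ev (∑ i ∈ s, f i) t = ∑ i ∈ s, E.ev (f i) t := by
  classical
  induction s using Finset.induction_on with
  | empty =>
    filter_upwards [ev_zero E] with t ht
    rw [Finset.sum_empty, Finset.sum_empty, ht]
  | insert a s ha ih =>
    filter_upwards [ih, E.add (f a) (∑ i ∈ s, f i)] with t h1 h2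
    rw [Finset.sum_insert ha, Finset.sum_insert ha, h2, h1]

theorem ev_aeval {w : ℕ} (b : Fin w → K) (F : MvPolynomial (Fin w) k) :
    ∀ᶠ t in (𝒰 : Filter α), E.ev (aeval b F) t = aeval (fun i => E.ev (b i) t) F := by
  induction F using MvPolynomial.induction_on with
  | C c =>
    filter_upwards [E.const c] with t ht
    rw [aeval_C, aeval_C, ht]
  | add p q hp hq =>
    filter_upwards [hp, hq, E.add (aeval b p) (aeval b q)] with t h1 h2 h3
    rw [map_add, map_add, h3, h1, h2]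
  | mul_X p i hp =>
    filter_upwards [hp, E.mul (aeval b p) (b i)] with t h1 h3
    rw [map_mul, map_mul, aeval_X, aeval_X, h3, h1]

end evl

theorem ge_aeval {k K : Type} [Field k] [Field K] [Algebra k K] (P : Place k K) {w : ℕ}
    (b : Fin w → K) (F : MvPolynomial (Fin w) k) (μ : ℤ)
    (h : ∀ m ∈ F.support, μ ≤ ∑ i, (m i : ℤ) * P.ord (b i)) : Ge P μ (aeval b F) := by
  rw [aeval_def, eval₂_eq']
  refine Ge.sum _ _ fun m hm => ?_
  have h1 : Ge P (∑ i, (m i : ℤ) * P.ord (b i)) (∏ i, b i ^ m i) :=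
    Ge.prod _ _ _ fun i _ => Ge.pow (Or.inr le_rfl) (m i)
  have h2 := (Ge.const (P := P) (F.coeff m)).mul h1
  exact h2.mono (by simpa using h m hm)

/-- the local estimate -/
theorem local_est {k K : Type} [Field k] [Field K] [Algebra k K] (P : Place k K) {w d : ℕ}
    (b : Fin w → K) (γ : K) (q : MvPolynomial (Fin w) k) (p : Fin d → MvPolynomial (Fin w) k)
    (hq : aeval b q ≠ 0) (heq : aeval b q * γ ^ d + ∑ i, aeval b (p i) * γ ^ (i : ℕ) = 0)
    (μ : ℤ) (h1 : ∀ m ∈ q.support, μ ≤ ∑ i, (m i : ℤ) * P.ord (b i))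
    (h2 : ∀ j, ∀ m ∈ (p j).support, μ ≤ ∑ i, (m i : ℤ) * P.ord (b i)) :
    max (-P.ord γ) 0 ≤ P.ord (aeval b q) - μ := by
  have h3 : μ ≤ P.ord (aeval b q) := (ge_aeval P b q μ h1).resolve_left hq
  rcases le_or_gt 0 (P.ord γ) with h4 | h4
  · rw [max_eq_right (by omega)]
    omega
  · have hγ : γ ≠ 0 := by
      rintro rfl
      rw [P.ord_zero] at h4
      omega
    rw [max_eq_left (by omega)]
    have hd : d ≠ 0 := by
      rintro rfl
      simp only [pow_zero, mul_one, Finset.univ_eq_empty, Finset.sum_empty, add_zero] at heq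
      exact hq heq
    have e1 : aeval b q * γ ^ d = -∑ i, aeval b (p i) * γ ^ (i : ℕ) := by
      linear_combination heq
    have h5 : Ge P (μ + ((d : ℤ) - 1) * P.ord γ) (∑ i, aeval b (p i) * γ ^ (i : ℕ)) := by
      refine Ge.sum _ _ fun i _ => ?_
      have h6 := (ge_aeval P b (p i) μ (h2 i)).mul
        (Ge.pow (P := P) (f := γ) (N := P.ord γ) (Or.inr le_rfl) (i : ℕ))
      refine h6.mono ?_
      have h7 : ((i : ℕ) : ℤ) ≤ (d : ℤ) - 1 := by
        have := i.isLt
        omega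
      nlinarith
    have h6 : Ge P (μ + ((d : ℤ) - 1) * P.ord γ) (aeval b q * γ ^ d) := by
      rw [e1]; exact h5.neg
    have h7 : aeval b q * γ ^ d ≠ 0 := mul_ne_zero hq (pow_ne_zero _ hγ)
    have h8 := h6.resolve_left h7
    rw [P.ord_mul hq (pow_ne_zero _ hγ), P.ord_pow] at h8
    linarith

theorem two_b (hT : S_TOR) : S_2B := by
  classical
  intro k Ω α _ _ _ _ _ D 𝒰 K _ _ E T w A b g hN hS hTop htr hb hI hBex hreg
  obtain ⟨B, hB, hB'⟩ := hBex
  obtain ⟨d, q, p, hq, heq, hsup⟩ := hT k K T hTop w htr b hb g hreg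
  have hne : q.support.Nonempty := by
    rwa [Finset.nonempty_iff_ne_empty, Ne, MvPolynomial.support_eq_empty]
  have hmin : ∀ t, ∀ P : Place k (D.K t), ∃ m ∈ q.support, ∀ m' ∈ q.support,
      ∑ i, (m i : ℤ) * P.ord (E.ev (b i) t) ≤ ∑ i, (m' i : ℤ) * P.ord (E.ev (b i) t) := by
    intro t P
    obtain ⟨m, hm, h⟩ := Finset.exists_min_image q.support
      (fun m => ∑ i, (m i : ℤ) * P.ord (E.ev (b i) t)) hne
    exact ⟨m, hm, h⟩
  choose m hm hm' using hmin
  have hS' : SlowS D 𝒰 (fun t => D.S t ∪ B t) := by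
    refine Slow.mono (Slow.add hS hB) (Eventually.of_forall fun t => ?_)
    exact_mod_cast Finset.card_union_le _ _
  have hmax := hI.max q hq (fun t => D.S t ∪ B t) hS' m hm
  refine Slow.mono hmax ?_
  have hev : ∀ᶠ t in (𝒰 : Filter α), aeval (fun i => E.ev (b i) t) q * E.ev g t ^ d +
      ∑ i, aeval (fun i => E.ev (b i) t) (p i) * E.ev g t ^ (i : ℕ) = 0 := by
    have e1 : ∀ᶠ t in (𝒰 : Filter α), ∀ i : Fin d, E.ev (aeval b (p i)) t =
        aeval (fun i => E.ev (b i) t) (p i) := eventually_all.2 fun i => ev_aeval E b (p i)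
    have e2 : ∀ᶠ t in (𝒰 : Filter α), ∀ i : Fin d, E.ev (aeval b (p i) * g ^ (i : ℕ)) t =
        E.ev (aeval b (p i)) t * E.ev (g ^ (i : ℕ)) t := eventually_all.2 fun i => E.mul _ _
    have e3 : ∀ᶠ t in (𝒰 : Filter α), ∀ i : Fin d, E.ev (g ^ (i : ℕ)) t = E.ev g t ^ (i : ℕ) :=
      eventually_all.2 fun i => ev_pow E g i
    filter_upwards [e1, e2, e3, ev_aeval E b q, E.mul (aeval b q) (g ^ d), ev_pow E g d,
      E.add (aeval b q * g ^ d) (∑ i, aeval b (p i) * g ^ (i : ℕ)),
      ev_sum E Finset.univ (fun i : Fin d => aeval b (p i) * g ^ (i : ℕ)), ev_zero E]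
      with t h1 h2 h3 h4 h5 h6 h7 h8 h9
    rw [heq, h9, h5, h6, h4, h8] at h7
    rw [h7]
    congr 1
    refine Finset.sum_congr rfl fun i _ => ?_
    rw [h2, h1, h3]
  filter_upwards [hev, hI.ne q hq, hB'] with t h1 h2 h3
  have h4 : hgt k (E.ev g t) = ∑ P ∈ D.S t ∪ B t, max (-P.ord (E.ev g t)) 0 := by
    unfold hgt
    rw [finsum_eq_sum_of_support_subset]
    intro P hP
    by_contra hcon
    rw [Finset.coe_union, Set.mem_union, not_or] at hcon
    apply hP
    simp only
    rw [max_eq_right]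
    by_contra h5
    push Not at h5
    exact hcon.2 (h3 P hcon.1 (by omega))
  rw [h4]
  push_cast
  refine Finset.sum_le_sum fun P _ => ?_
  have h5 := local_est P (fun i => E.ev (b i) t) (E.ev g t) q p h2 h1
    (∑ i, (m t P i : ℤ) * P.ord (E.ev (b i) t)) (hm' t P) (fun j m0 hm0 => by
      obtain ⟨m', hm'1, hm'2⟩ := hsup (fun i => P.ord (E.ev (b i) t)) j m0 hm0
      exact (hm' t P m' hm'1).trans hm'2)
  have h6 : ((max (-P.ord (E.ev g t)) 0 : ℤ) : ℝ) ≤
      ((P.ord (aeval (fun i => E.ev (b i) t) q) - ∑ i, (m t P i : ℤ) * P.ord (E.ev (b i) t) : ℤ) : ℝ) := by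
    exact_mod_cast h5
  push_cast at h6
  exact h6

end Pool.Agent.N946.GF
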